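import Mathlib

/-!
Basic facts on expansions in non-integer bases over the alphabet {0,1}.
-/

set_option autoImplicit false

open Finset

namespace Pool.Agent.Work.MP_6b9f1a_nt

/-- real value of a digit -/
noncomputable def b (x : Bool) : ℝ := if x then 1 else 0

lemma b_true : b true = 1 := by simp [b]
lemma b_false : b false = 0 := by simp [b]
lemma b_nonneg (x : Bool) : 0 ≤ b x := by cases x <;> simp [b]
lemma b_le (x : Bool) : b x ≤ 1 := by cases x <;> simp [b]
lemma b_not (x : Bool) : b (!x) = 1 - b x := by cases x <;> simp [b]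

/-- value of the tail of `g` starting at index `n` -/
noncomputable def T (q : ℝ) (g : ℕ → Bool) (n : ℕ) : ℝ := ∑' i : ℕ, b (g (n + i)) / q ^ (i + 1)

lemma summable_geo {q : ℝ} (hq : 1 < q) : Summable (fun i : ℕ => 1 / q ^ (i + 1)) := by
  have h : Summable (fun i : ℕ => (1 / q) ^ i) :=
    summable_geometric_of_lt_one (by positivity) (by rw [div_lt_one (by linarith)]; exact hq)
  have h2 := (summable_nat_add_iff 1).2 h
  refine h2.congr ?_
  intro i
  rw [one_div_pow]

lemma tsum_geo {q : ℝ} (hq : 1 < q) : ∑' i : ℕ, 1 / q ^ (i + 1) = 1 / (q - 1) := by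
  have h1 : ∀ i : ℕ, 1 / q ^ (i + 1) = (1 / q) * (1 / q) ^ i := by
    intro i
    rw [one_div_pow, pow_succ]
    field_simp
  simp_rw [h1]
  rw [tsum_mul_left, tsum_geometric_of_lt_one (by positivity) (by rw [div_lt_one (by linarith)]; exact hq)]
  have : q - 1 ≠ 0 := by linarith
  have : q ≠ 0 := by linarith
  field_simp

lemma summ {q : ℝ} (hq : 1 < q) (g : ℕ → Bool) (n : ℕ) :
    Summable (fun i : ℕ => b (g (n + i)) / q ^ (i + 1)) := by
  refine Summable.of_nonneg_of_le (fun i => ?_) (fun i => ?_) (summable_geo hq)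
  · exact div_nonneg (b_nonneg _) (by positivity)
  · exact div_le_div_of_nonneg_right (b_le _) (by positivity)

lemma T_nonneg {q : ℝ} (hq : 1 < q) (g : ℕ → Bool) (n : ℕ) : 0 ≤ T q g n :=
  tsum_nonneg (fun i => div_nonneg (b_nonneg _) (by positivity))

lemma T_le {q : ℝ} (hq : 1 < q) (g : ℕ → Bool) (n : ℕ) : T q g n ≤ 1 / (q - 1) := by
  rw [← tsum_geo hq]
  refine Summable.tsum_le_tsum (fun i => ?_) (summ hq g n) (summable_geo hq)
  exact div_le_div_of_nonneg_right (b_le _) (by positivity)

lemma T_compl {q : ℝ} (hq : 1 < q) (g : ℕ → Bool) (n : ℕ) :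
    T q (fun i => !g i) n = 1 / (q - 1) - T q g n := by
  rw [← tsum_geo hq]
  unfold T
  rw [← Summable.tsum_sub (summable_geo hq) (summ hq g n)]
  congr 1
  ext i
  rw [b_not]
  ring

lemma T_succ {q : ℝ} (hq : 1 < q) (g : ℕ → Bool) (n : ℕ) :
    T q g n = (b (g n) + T q g (n + 1)) / q := by
  have h0 : q ≠ 0 := by linarith
  unfold T
  rw [(summ hq g n).tsum_eq_zero_add]
  have : ∀ i : ℕ, b (g (n + (i + 1))) / q ^ (i + 1 + 1) = (1 / q) * (b (g (n + 1 + i)) / q ^ (i + 1)) := by
    intro i
    rw [pow_succ, show n + (i + 1) = n + 1 + i by ring]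
    field_simp
  simp_rw [this]
  rw [tsum_mul_left]
  simp
  field_simp

lemma T_mul {q : ℝ} (hq : 1 < q) (g : ℕ → Bool) (n : ℕ) :
    T q g (n + 1) = q * T q g n - b (g n) := by
  have h0 : q ≠ 0 := by linarith
  rw [T_succ hq g n]
  field_simp
  ring

/-- finite part -/
noncomputable def P (q : ℝ) (g : ℕ → Bool) (n j : ℕ) : ℝ := ∑ i ∈ range j, b (g (n + i)) / q ^ (i + 1)

lemma P_nonneg {q : ℝ} (hq : 1 < q) (g : ℕ → Bool) (n j : ℕ) : 0 ≤ P q g n j :=
  sum_nonneg (fun i _ => div_nonneg (b_nonneg _) (by positivity))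

lemma T_split {q : ℝ} (hq : 1 < q) (g : ℕ → Bool) (n j : ℕ) :
    T q g n = P q g n j + T q g (n + j) / q ^ j := by
  have h0 : q ≠ 0 := by linarith
  induction j with
  | zero => simp [P]
  | succ j ih =>
    rw [ih]
    unfold P
    rw [sum_range_succ, T_succ hq g (n + j), pow_succ, show n + (j + 1) = n + j + 1 by ring]
    field_simp
    ring

lemma P_congr {q : ℝ} (g g' : ℕ → Bool) (n n' j : ℕ) (h : ∀ i < j, g (n + i) = g' (n' + i)) :
    P q g n j = P q g' n' j := by
  unfold P
  refine sum_congr rfl (fun i hi => ?_)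
  rw [h i (mem_range.1 hi)]

lemma T_congr {q : ℝ} (g g' : ℕ → Bool) (n n' : ℕ) (h : ∀ i, g (n + i) = g' (n' + i)) :
    T q g n = T q g' n' := by
  unfold T
  congr 1
  ext i
  rw [h i]

lemma P_anti {q r : ℝ} (hq : 1 < q) (hqr : q ≤ r) (g : ℕ → Bool) (n j : ℕ) :
    P r g n j ≤ P q g n j := by
  unfold P
  refine sum_le_sum (fun i _ => ?_)
  have : q ^ (i + 1) ≤ r ^ (i + 1) := pow_le_pow_left₀ (by linarith) hqr _
  exact div_le_div_of_nonneg_left (b_nonneg _) (by positivity) this

lemma T_anti {q r : ℝ} (hq : 1 < q) (hqr : q ≤ r) (g : ℕ → Bool) (n : ℕ) :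
    T r g n ≤ T q g n := by
  have hr : 1 < r := lt_of_lt_of_le hq hqr
  refine Summable.tsum_le_tsum (f := fun i => b (g (n + i)) / r ^ (i + 1))
    (g := fun i => b (g (n + i)) / q ^ (i + 1)) (fun i => ?_) (summ hr g n) (summ hq g n)
  have : q ^ (i + 1) ≤ r ^ (i + 1) := pow_le_pow_left₀ (by linarith) hqr _
  exact div_le_div_of_nonneg_left (b_nonneg _) (by positivity) this

/-- difference of finite parts is at most the difference of full geometric sums -/
lemma P_diff_le {q r : ℝ} (hq : 1 < q) (hqr : q ≤ r) (g : ℕ → Bool) (n j : ℕ) :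
    P q g n j - P r g n j ≤ 1 / (q - 1) - 1 / (r - 1) := by
  have hr : 1 < r := lt_of_lt_of_le hq hqr
  have key : P q g n j - P r g n j ≤ ∑ i ∈ range j, (1 / q ^ (i + 1) - 1 / r ^ (i + 1)) := by
    unfold P
    rw [← sum_sub_distrib]
    refine sum_le_sum (fun i _ => ?_)
    have h1 : q ^ (i + 1) ≤ r ^ (i + 1) := pow_le_pow_left₀ (by linarith) hqr _
    have h2 : 1 / r ^ (i + 1) ≤ 1 / q ^ (i + 1) :=
      div_le_div_of_nonneg_left (by norm_num) (by positivity) h1
    have h3 := b_le (g (n + i))
    have h4 := b_nonneg (g (n + i))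
    have : b (g (n + i)) / q ^ (i + 1) - b (g (n + i)) / r ^ (i + 1)
        = b (g (n + i)) * (1 / q ^ (i + 1) - 1 / r ^ (i + 1)) := by ring
    rw [this]
    nlinarith
  refine key.trans ?_
  rw [← tsum_geo hq, ← tsum_geo hr, ← Summable.tsum_sub (summable_geo hq) (summable_geo hr)]
  refine Summable.sum_le_tsum _ (fun i _ => ?_) ((summable_geo hq).sub (summable_geo hr))
  have h1 : q ^ (i + 1) ≤ r ^ (i + 1) := pow_le_pow_left₀ (by linarith) hqr _
  have h2 : 1 / r ^ (i + 1) ≤ 1 / q ^ (i + 1) :=
    div_le_div_of_nonneg_left (by norm_num) (by positivity) h1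
  linarith

/-- difference of finite parts is at least the difference of the first terms -/
lemma P_diff_ge {q r : ℝ} (hq : 1 < q) (hqr : q ≤ r) (g : ℕ → Bool) (n j : ℕ) (hj : 1 ≤ j)
    (hg : g n = true) :
    1 / q - 1 / r ≤ P q g n j - P r g n j := by
  have hr : 1 < r := lt_of_lt_of_le hq hqr
  unfold P
  rw [← sum_sub_distrib]
  have h0 : (0 : ℕ) ∈ range j := mem_range.2 hj
  have : 1 / q - 1 / r = b (g (n + 0)) / q ^ (0 + 1) - b (g (n + 0)) / r ^ (0 + 1) := by
    simp [hg, b_true]
  rw [this]
  refine single_le_sum (f := fun i => b (g (n + i)) / q ^ (i + 1) - b (g (n + i)) / r ^ (i + 1))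
    (fun i _ => ?_) h0
  have h1 : q ^ (i + 1) ≤ r ^ (i + 1) := pow_le_pow_left₀ (by linarith) hqr _
  have : b (g (n + i)) / r ^ (i + 1) ≤ b (g (n + i)) / q ^ (i + 1) :=
    div_le_div_of_nonneg_left (b_nonneg _) (by positivity) h1
  linarith

/-- every point of `[0, 1/(q-1)]` has an expansion when `q ≤ 2` -/
lemma exists_expansion {q : ℝ} (hq : 1 < q) (hq2 : q ≤ 2) (y : ℝ) (h0 : 0 ≤ y)
    (h1 : y ≤ 1 / (q - 1)) : ∃ g : ℕ → Bool, T q g 0 = y := by
  classical
  let r : ℕ → ℝ := fun n => Nat.rec y (fun _ z => if 1 ≤ q * z then q * z - 1 else q * z) n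
  have r0 : r 0 = y := rfl
  have rs : ∀ n, r (n + 1) = if 1 ≤ q * r n then q * r n - 1 else q * r n := fun n => rfl
  have hq1 : 0 < q - 1 := by linarith
  have one_le : 1 ≤ 1 / (q - 1) := by
    rw [le_div_iff₀ hq1]; linarith
  have inv : ∀ n, 0 ≤ r n ∧ r n ≤ 1 / (q - 1) := by
    intro n
    induction n with
    | zero => exact ⟨h0, h1⟩
    | succ n ih =>
      rw [rs]
      split_ifs with h
      · refine ⟨by linarith, ?_⟩
        have h2 : q * r n ≤ q * (1 / (q - 1)) := mul_le_mul_of_nonneg_left ih.2 (by linarith)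
        have h3 : q * (1 / (q - 1)) - 1 = 1 / (q - 1) := by field_simp; ring
        linarith
      · push Not at h
        exact ⟨mul_nonneg (by linarith) ih.1, by linarith⟩
  let g : ℕ → Bool := fun n => decide (1 ≤ q * r n)
  have step : ∀ n, r n = (b (g n) + r (n + 1)) / q := by
    intro n
    rw [rs]
    have hq0 : q ≠ 0 := by linarith
    by_cases h : 1 ≤ q * r n
    · have : g n = true := by simp [g, h]
      rw [this, b_true, if_pos h]; field_simp; ring
    · have : g n = false := by simp [g, h]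
      rw [this, b_false, if_neg h]; field_simp; ring
  have diff : ∀ n, T q g 0 - y = (T q g n - r n) / q ^ n := by
    intro n
    have hq0 : q ≠ 0 := by linarith
    induction n with
    | zero => simp [r0]
    | succ n ih =>
      rw [ih, T_succ hq g n, step n, pow_succ]
      field_simp
      ring
  refine ⟨g, ?_⟩
  have lim : Filter.Tendsto (fun n : ℕ => (1 / (q - 1)) * (1 / q) ^ n) Filter.atTop (nhds 0) := by
    have := tendsto_pow_atTop_nhds_zero_of_lt_one (r := 1 / q) (by positivity)
      (by rw [div_lt_one (by linarith)]; exact hq)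
    simpa using this.const_mul (1 / (q - 1))
  have bound : ∀ n, |T q g 0 - y| ≤ (1 / (q - 1)) * (1 / q) ^ n := by
    intro n
    rw [diff n, abs_div, abs_of_pos (show 0 < q ^ n by positivity), one_div_pow, mul_one_div]
    refine div_le_div_of_nonneg_right ?_ (by positivity)
    rw [abs_le]
    have a1 := T_nonneg hq g n
    have a2 := T_le hq g n
    have a3 := inv n
    constructor <;> linarith
  have h3 : |T q g 0 - y| ≤ 0 := ge_of_tendsto' lim bound
  have h4 : T q g 0 - y = 0 := abs_nonpos_iff.1 h3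
  linarith

/-- necessary condition for uniqueness at a digit zero -/
lemma unique_false {q : ℝ} (hq : 1 < q) (hq2 : q ≤ 2) (c : ℕ → Bool)
    (hu : ∀ c' : ℕ → Bool, T q c' 0 = T q c 0 → c' = c) (n : ℕ) (hn : c n = false) :
    T q c (n + 1) < 1 := by
  by_contra hcon
  push Not at hcon
  have hq1 : 0 < q - 1 := by linarith
  have one_le : 1 ≤ 1 / (q - 1) := by
    rw [le_div_iff₀ hq1]; linarith
  obtain ⟨g, hg⟩ := exists_expansion hq hq2 (T q c (n + 1) - 1) (by linarith)
    (by have := T_le hq c (n + 1); linarith)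
  let c' : ℕ → Bool := fun i => if i < n then c i else if i = n then true else g (i - (n + 1))
  have h1 : ∀ i < n, c' (0 + i) = c (0 + i) := by
    intro i hi; simp [c', hi]
  have h2 : c' n = true := by simp [c']
  have h3 : T q c' (n + 1) = T q g 0 := by
    apply T_congr
    intro i
    have h5 : ¬ (n + 1 + i < n) := by omega
    have h6 : ¬ (n + 1 + i = n) := by omega
    simp only [c', h5, h6, if_false]
    congr 1
    omega
  have h4 : T q c' 0 = T q c 0 := by
    rw [T_split hq c' 0 n, T_split hq c 0 n, P_congr c' c 0 0 n h1]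
    rw [T_succ hq c' (0 + n), T_succ hq c (0 + n)]
    simp only [zero_add]
    rw [h2, h3, hg, hn, b_true, b_false]
    ring
  have := hu c' h4
  rw [this] at h2
  rw [h2] at hn
  exact Bool.noConfusion hn

/-- necessary condition for uniqueness at a digit one -/
lemma unique_true {q : ℝ} (hq : 1 < q) (hq2 : q ≤ 2) (c : ℕ → Bool)
    (hu : ∀ c' : ℕ → Bool, T q c' 0 = T q c 0 → c' = c) (n : ℕ) (hn : c n = true) :
    1 / (q - 1) - 1 < T q c (n + 1) := by
  have hu' : ∀ c' : ℕ → Bool, T q c' 0 = T q (fun i => !c i) 0 → c' = (fun i => !c i) := by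
    intro c' hc'
    have h1 : T q (fun i => !c' i) 0 = T q c 0 := by
      rw [T_compl hq c' 0, hc', T_compl hq c 0]; ring
    have h2 := hu _ h1
    ext i
    have h3 : (!c' i) = c i := congrFun h2 i
    rw [← h3]; simp
  have := unique_false hq hq2 (fun i => !c i) hu' n (by simp [hn])
  rw [T_compl hq] at this
  linarith

/-- sufficient condition for uniqueness -/
lemma unique_of_cond {q : ℝ} (hq : 1 < q) (c : ℕ → Bool)
    (h1 : ∀ n, c n = false → T q c (n + 1) < 1)
    (h2 : ∀ n, c n = true → 1 / (q - 1) - 1 < T q c (n + 1)) :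
    ∀ c' : ℕ → Bool, T q c' 0 = T q c 0 → c' = c := by
  classical
  intro c' hc'
  by_contra hne
  have hex : ∃ n, c' n ≠ c n := by
    by_contra hcon
    push Not at hcon
    exact hne (funext hcon)
  let n := Nat.find hex
  have hn : c' n ≠ c n := Nat.find_spec hex
  have hlt : ∀ i < n, c' i = c i := by
    intro i hi
    have := Nat.find_min hex hi
    push Not at this
    exact this
  have hq0 : q ≠ 0 := by linarith
  have e1 : P q c' 0 n = P q c 0 n := P_congr _ _ _ _ _ (fun i hi => by simpa using hlt i hi)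
  have e2 : T q c' n = T q c n := by
    have a := T_split hq c' 0 n
    have a' := T_split hq c 0 n
    rw [zero_add] at a a'
    rw [a, a', e1] at hc'
    have h3 : T q c' n / q ^ n = T q c n / q ^ n := by linarith
    have h4 : q ^ n ≠ 0 := pow_ne_zero _ hq0
    field_simp at h3
    exact h3
  have e3 : b (c' n) + T q c' (n + 1) = b (c n) + T q c (n + 1) := by
    rw [T_succ hq c' n, T_succ hq c n] at e2
    field_simp at e2
    exact e2
  have g0 := T_nonneg hq c' (n + 1)
  have g1 := T_le hq c' (n + 1)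
  cases hcn : c n with
  | false =>
    have : c' n = true := by
      cases h : c' n with
      | false => rw [h, hcn] at hn; exact absurd rfl hn
      | true => rfl
    rw [this, hcn, b_true, b_false] at e3
    have := h1 n hcn
    linarith
  | true =>
    have : c' n = false := by
      cases h : c' n with
      | true => rw [h, hcn] at hn; exact absurd rfl hn
      | false => rfl
    rw [this, hcn, b_true, b_false] at e3
    have := h2 n hcn
    linarith

/-- a nonconstant unique expansion forces `q (q-1) > 1` -/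
lemma base_large {q : ℝ} (hq : 1 < q) (hq2 : q ≤ 2) (c : ℕ → Bool)
    (hu : ∀ c' : ℕ → Bool, T q c' 0 = T q c 0 → c' = c)
    (h0 : ∃ i, c i = false) (h1 : ∃ i, c i = true) : 1 < q * (q - 1) := by
  have hq1 : 0 < q - 1 := by linarith
  have hex : ∃ n, c n ≠ c (n + 1) := by
    by_contra hcon
    push Not at hcon
    have : ∀ n, c n = c 0 := by
      intro n
      induction n with
      | zero => rfl
      | succ n ih => rw [← hcon n, ih]
    obtain ⟨i, hi⟩ := h0
    obtain ⟨j, hj⟩ := h1
    rw [this] at hi hj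
    rw [hi] at hj
    exact Bool.noConfusion hj
  obtain ⟨n, hn⟩ := hex
  cases hcn : c n with
  | false =>
    have hc1 : c (n + 1) = true := by
      cases h : c (n + 1) with
      | false => rw [h, hcn] at hn; exact absurd rfl hn
      | true => rfl
    have a1 := unique_false hq hq2 c hu n hcn
    have a2 := unique_true hq hq2 c hu (n + 1) hc1
    rw [T_succ hq c (n + 1), hc1, b_true, div_lt_one (by linarith)] at a1
    have a3 : 1 / (q - 1) < q := by linarith
    rw [div_lt_iff₀ hq1] at a3
    exact a3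
  | true =>
    have hc1 : c (n + 1) = false := by
      cases h : c (n + 1) with
      | true => rw [h, hcn] at hn; exact absurd rfl hn
      | false => rfl
    have a1 := unique_true hq hq2 c hu n hcn
    have a2 := unique_false hq hq2 c hu (n + 1) hc1
    rw [T_succ hq c (n + 1), hc1, b_false, zero_add, lt_div_iff₀ (by linarith)] at a1
    have a3 : (1 / (q - 1) - 1) * q < 1 := by linarith
    have a4 : (1 / (q - 1) - 1) * q = (2 - q) * q / (q - 1) := by field_simp; ring
    rw [a4, div_lt_one hq1] at a3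
    nlinarith

end Pool.Agent.Work.MP_6b9f1a_nt
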