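import Mathlib

/-!
The Thue-Morse sequence and its shift inequalities.
-/

set_option autoImplicit false

namespace Pool.Agent.Work.MP_6b9f1a_nt

/-- the Thue-Morse sequence: parity of the number of binary digits one -/
def t (n : ℕ) : Bool := decide ((Nat.digits 2 n).sum % 2 = 1)

lemma t_zero : t 0 = false := by simp [t]
lemma t_one : t 1 = true := by simp [t]

lemma t_even (n : ℕ) : t (2 * n) = t n := by
  rcases Nat.eq_zero_or_pos n with h | h
  · subst h; simp
  · unfold t
    rw [Nat.digits_def' (by norm_num) (by omega : 0 < 2 * n)]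
    have h1 : 2 * n % 2 = 0 := by omega
    have h2 : 2 * n / 2 = n := by omega
    rw [h1, h2]
    simp

lemma t_odd (n : ℕ) : t (2 * n + 1) = !t n := by
  unfold t
  rw [Nat.digits_def' (by norm_num) (by omega : 0 < 2 * n + 1)]
  have h1 : (2 * n + 1) % 2 = 1 := by omega
  have h2 : (2 * n + 1) / 2 = n := by omega
  rw [h1, h2, List.sum_cons]
  by_cases h : (Nat.digits 2 n).sum % 2 = 1
  · have : ¬ (1 + (Nat.digits 2 n).sum) % 2 = 1 := by omega
    simp [h, this]
  · have : (1 + (Nat.digits 2 n).sum) % 2 = 1 := by omega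
    simp [h, this]

lemma t_two : t 2 = true := by
  have := t_even 1
  rw [t_one] at this
  exact this
lemma t_three : t 3 = false := by
  have := t_odd 1
  rw [t_one] at this
  exact this
lemma t_four : t 4 = true := by
  have := t_even 2
  rw [t_two] at this
  exact this
lemma t_five : t 5 = false := by
  have := t_odd 2
  rw [t_two] at this
  exact this
lemma t_six : t 6 = false := by
  have := t_even 3
  rw [t_three] at this
  exact this

lemma t_add (k i : ℕ) (hi : i < 2 ^ k) : t (2 ^ k + i) = !t i := by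
  induction k generalizing i with
  | zero =>
    have : i = 0 := by simpa using hi
    subst this
    simp [t_one, t_zero]
  | succ k ih =>
    rcases Nat.even_or_odd' i with ⟨j, hj | hj⟩
    · have hj' : j < 2 ^ k := by rw [pow_succ] at hi; omega
      have : 2 ^ (k + 1) + i = 2 * (2 ^ k + j) := by rw [pow_succ, hj]; ring
      rw [this, t_even, ih j hj', hj, t_even]
    · have hj' : j < 2 ^ k := by rw [pow_succ] at hi; omega
      have : 2 ^ (k + 1) + i = 2 * (2 ^ k + j) + 1 := by rw [pow_succ, hj]; ring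
      rw [this, t_odd, ih j hj', hj, t_odd]

lemma t_pow (k : ℕ) : t (2 ^ k) = true := by
  have := t_add k 0 (by positivity)
  simpa [t_zero] using this

/-- lower inequality: the shifted word is above the complement -/
def LowAt (k R : ℕ) : Prop :=
  ∃ j, 1 ≤ j ∧ j ≤ 2 ^ k - R ∧ (∀ i, 1 ≤ i → i < j → t (R + i) = !t i) ∧ t (R + j) = true ∧ t j = true

/-- strict upper inequality -/
def UpAt (k R : ℕ) : Prop :=
  ∃ j, 1 ≤ j ∧ j ≤ 2 ^ k - R ∧ (∀ i, 1 ≤ i → i < j → t (R + i) = t i) ∧ t (R + j) = false ∧ t j = true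

def EqAt (k R : ℕ) : Prop := ∀ i, 1 ≤ i → i ≤ 2 ^ k - R → t (R + i) = t i

lemma up_of_eq (k R : ℕ) (hR1 : 1 ≤ R) (hR : R < 2 ^ k) (he : EqAt k R)
    (hlow : LowAt k (2 ^ k - R)) : UpAt (k + 1) R := by
  obtain ⟨j, hj1, hj2, hj3, hj4, hj5⟩ := hlow
  have hjR : j ≤ R := by omega
  have hpow : 2 ^ (k + 1) = 2 ^ k + 2 ^ k := by rw [pow_succ]; ring
  refine ⟨2 ^ k - R + j, by omega, by omega, ?_, ?_, hj4⟩
  · intro i hi1 hi2
    by_cases hi : i ≤ 2 ^ k - R
    · exact he i hi1 hi
    · push Not at hi
      have h1 : R + i = 2 ^ k + (i - (2 ^ k - R)) := by omega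
      have h2 : i = 2 ^ k - R + (i - (2 ^ k - R)) := by omega
      rw [h1, t_add k _ (by omega)]
      conv_rhs => rw [h2]
      rw [hj3 _ (by omega) (by omega)]
  · have h1 : R + (2 ^ k - R + j) = 2 ^ k + j := by omega
    rw [h1, t_add k _ (by omega), hj5]
    rfl

lemma TM (k : ℕ) : ∀ R, R < 2 ^ k → LowAt k R ∧ (EqAt k R ∨ UpAt k R) := by
  induction k with
  | zero =>
    intro R hR
    have : R = 0 := by simpa using hR
    subst this
    refine ⟨⟨1, le_refl _, by norm_num, fun i h1 h2 => by omega, t_one, t_one⟩, Or.inl ?_⟩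
    intro i _ _
    simp
  | succ k ih =>
    intro R hR
    have hpow : 2 ^ (k + 1) = 2 ^ k + 2 ^ k := by rw [pow_succ]; ring
    have hM : 0 < 2 ^ k := by positivity
    by_cases hRM : R < 2 ^ k
    · obtain ⟨hlow, hup⟩ := ih R hRM
      constructor
      · obtain ⟨j, hj1, hj2, hj3⟩ := hlow
        exact ⟨j, hj1, by omega, hj3⟩
      · rcases hup with he | hu
        · rcases Nat.eq_zero_or_pos R with h0 | hpos
          · subst h0
            left
            intro i _ _
            simp
          · right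
            exact up_of_eq k R hpos hRM he (ih (2 ^ k - R) (by omega)).1
        · right
          obtain ⟨j, hj1, hj2, hj3⟩ := hu
          exact ⟨j, hj1, by omega, hj3⟩
    · push Not at hRM
      obtain ⟨R', rfl⟩ : ∃ R', R = 2 ^ k + R' := ⟨R - 2 ^ k, by omega⟩
      have hR' : R' < 2 ^ k := by omega
      obtain ⟨hlow, hup⟩ := ih R' hR'
      have key : ∀ i, R' + i < 2 ^ k → t (2 ^ k + R' + i) = !t (R' + i) := by
        intro i hi
        rw [add_assoc, t_add k _ hi]
      have key2 : ∀ i, R' + i = 2 ^ k → t (2 ^ k + R' + i) = true := by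
        intro i hi
        rw [add_assoc, hi, ← hpow, t_pow]
      constructor
      · rcases hup with he | hu
        · refine ⟨2 ^ k - R', by omega, by omega, ?_, ?_, ?_⟩
          · intro i hi1 hi2
            rw [key i (by omega), he i hi1 (by omega)]
          · exact key2 _ (by omega)
          · rw [← he (2 ^ k - R') (by omega) (le_refl _)]
            have : R' + (2 ^ k - R') = 2 ^ k := by omega
            rw [this, t_pow]
        · obtain ⟨j, hj1, hj2, hj3, hj4, hj5⟩ := hu
          have hne : R' + j ≠ 2 ^ k := by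
            intro h
            rw [h, t_pow] at hj4
            exact Bool.noConfusion hj4
          refine ⟨j, hj1, by omega, ?_, ?_, hj5⟩
          · intro i hi1 hi2
            rw [key i (by omega), hj3 i hi1 hi2]
          · rw [key j (by omega), hj4]; rfl
      · obtain ⟨j, hj1, hj2, hj3, hj4, hj5⟩ := hlow
        by_cases hj : R' + j < 2 ^ k
        · right
          refine ⟨j, hj1, by omega, ?_, ?_, hj5⟩
          · intro i hi1 hi2
            rw [key i (by omega), hj3 i hi1 hi2]; simp
          · rw [key j hj, hj4]; rfl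
        · left
          have hjeq : R' + j = 2 ^ k := by omega
          intro i hi1 hi2
          rcases Nat.lt_or_ge i j with h | h
          · rw [key i (by omega), hj3 i hi1 h]; simp
          · have hij : i = j := by omega
            subst hij
            rw [key2 i hjeq, hj5]

/-- `σ^n τ` is lexicographically above the complement of `τ` -/
lemma tm_low (n : ℕ) : ∃ j, 1 ≤ j ∧ (∀ i, 1 ≤ i → i < j → t (n + i) = !t i) ∧
    t (n + j) = true ∧ t j = true := by
  obtain ⟨j, h1, _, h2⟩ := (TM n n Nat.lt_two_pow_self).1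
  exact ⟨j, h1, h2⟩

/-- `σ^n τ` is lexicographically below `τ` for `n ≥ 1` -/
lemma tm_up (n : ℕ) (hn : 1 ≤ n) : ∃ j, 1 ≤ j ∧ (∀ i, 1 ≤ i → i < j → t (n + i) = t i) ∧
    t (n + j) = false ∧ t j = true := by
  rcases (TM n n Nat.lt_two_pow_self).2 with h | h
  · have h2 : n < 2 ^ n := Nat.lt_two_pow_self
    obtain ⟨j, h1, _, h2⟩ := up_of_eq n n hn h2 h (TM n (2 ^ n - n) (by omega)).1
    exact ⟨j, h1, h2⟩
  · obtain ⟨j, h1, _, h2⟩ := h
    exact ⟨j, h1, h2⟩

end Pool.Agent.Work.MP_6b9f1a_nt
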