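import Mathlib
import Pool.Agent.Work.MP_6b9f1a_nt.Basic
import Pool.Agent.Work.MP_6b9f1a_nt.TM

/-!
The Komornik-Loreti constant: existence, and minimality among univoque bases of 1.
-/

set_option autoImplicit false

open Finset

namespace Pool.Agent.Work.MP_6b9f1a_nt

/-- value of the digits of `g` with index `> n` (digits are numbered from 1) -/
noncomputable def W (q : ℝ) (g : ℕ → Bool) (n : ℕ) : ℝ := T q (fun i => g (i + 1)) n

/-- finite part of `W` -/
noncomputable def PW (q : ℝ) (g : ℕ → Bool) (n j : ℕ) : ℝ := P q (fun i => g (i + 1)) n j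

lemma W_split {q : ℝ} (hq : 1 < q) (g : ℕ → Bool) (n j : ℕ) :
    W q g n = PW q g n j + W q g (n + j) / q ^ j := T_split hq _ n j

lemma W_compl {q : ℝ} (hq : 1 < q) (g : ℕ → Bool) (n : ℕ) :
    W q (fun i => !g i) n = 1 / (q - 1) - W q g n := T_compl hq (fun i => g (i + 1)) n

lemma W_nonneg {q : ℝ} (hq : 1 < q) (g : ℕ → Bool) (n : ℕ) : 0 ≤ W q g n := T_nonneg hq _ n

lemma W_le {q : ℝ} (hq : 1 < q) (g : ℕ → Bool) (n : ℕ) : W q g n ≤ 1 / (q - 1) := T_le hq _ n

lemma PW_succ (q : ℝ) (g : ℕ → Bool) (n j : ℕ) :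
    PW q g n (j + 1) = PW q g n j + b (g (n + j + 1)) / q ^ (j + 1) := by
  unfold PW P
  rw [sum_range_succ]

lemma PW_pred (q : ℝ) (g : ℕ → Bool) (n j : ℕ) (hj : 1 ≤ j) :
    PW q g n j = PW q g n (j - 1) + b (g (n + j)) / q ^ j := by
  obtain ⟨i, rfl⟩ : ∃ i, j = i + 1 := ⟨j - 1, by omega⟩
  rw [PW_succ]
  rfl

lemma W_digit {q : ℝ} (hq : 1 < q) (g : ℕ → Bool) (n j : ℕ) (hj : 1 ≤ j) :
    W q g n = PW q g n (j - 1) + (b (g (n + j)) + W q g (n + j)) / q ^ j := by
  rw [W_split hq g n j, PW_pred q g n j hj]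
  ring

lemma PW_congr {q : ℝ} (g g' : ℕ → Bool) (n n' j : ℕ)
    (h : ∀ i, 1 ≤ i → i ≤ j → g (n + i) = g' (n' + i)) : PW q g n j = PW q g' n' j := by
  unfold PW
  refine P_congr _ _ _ _ _ (fun i hi => ?_)
  have := h (i + 1) (by omega) (by omega)
  exact this

lemma PW_anti {q r : ℝ} (hq : 1 < q) (hqr : q ≤ r) (g : ℕ → Bool) (n j : ℕ) :
    PW r g n j ≤ PW q g n j := P_anti hq hqr _ n j

lemma W_succ {q : ℝ} (hq : 1 < q) (g : ℕ → Bool) (n : ℕ) :
    W q g n = (b (g (n + 1)) + W q g (n + 1)) / q := T_succ hq _ n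

lemma W_of_zero_based {q : ℝ} (c : ℕ → Bool) (n : ℕ) : W q (fun i => c (i - 1)) n = T q c n := by
  unfold W
  congr 1

/-- strict monotonicity in the base -/
lemma W_lt {q r : ℝ} (hq : 1 < q) (hqr : q < r) (g : ℕ → Bool) (n : ℕ) (hg : g (n + 1) = true) :
    W r g n < W q g n := by
  have hr : 1 < r := hq.trans hqr
  have h1 : W r g (n + 1) ≤ W q g (n + 1) := by
    unfold W
    exact T_anti hq hqr.le _ _
  rw [W_succ hr, W_succ hq, hg, b_true]
  have h2 := W_nonneg hr g (n + 1)
  have h3 : (1 + W r g (n + 1)) / r < (1 + W r g (n + 1)) / q :=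
    div_lt_div_of_pos_left (by linarith) (by linarith) hqr
  have h4 : (1 + W r g (n + 1)) / q ≤ (1 + W q g (n + 1)) / q :=
    div_le_div_of_nonneg_right (by linarith) (by linarith)
  linarith

/-- existence of the Komornik-Loreti constant -/
lemma exists_star : ∃ q : ℝ, 17 / 10 ≤ q ∧ q ≤ 18 / 10 ∧ W q t 0 = 1 := by
  have hcont : ContinuousOn (fun q : ℝ => W q t 0) (Set.Icc (17 / 10) (18 / 10)) := by
    unfold W T
    refine continuousOn_tsum (u := fun i : ℕ => 1 / (17 / 10 : ℝ) ^ (i + 1)) (fun i => ?_)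
      (summable_geo (by norm_num)) (fun i q hq => ?_)
    · refine ContinuousOn.div continuousOn_const (continuousOn_id.pow _) (fun q hq => ?_)
      have : (0 : ℝ) < q := by have := hq.1; linarith
      exact (pow_pos this _).ne'
    · have hq0 : (0 : ℝ) < q := by have := hq.1; linarith
      rw [Real.norm_of_nonneg (div_nonneg (b_nonneg _) (by positivity))]
      have h1 : b (t (0 + i + 1)) / q ^ (i + 1) ≤ 1 / q ^ (i + 1) :=
        div_le_div_of_nonneg_right (b_le _) (by positivity)
      have h2 : 1 / q ^ (i + 1) ≤ 1 / (17 / 10 : ℝ) ^ (i + 1) :=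
        div_le_div_of_nonneg_left (by norm_num) (by positivity)
          (pow_le_pow_left₀ (by norm_num) hq.1 _)
      exact h1.trans h2
  have hlo : (1 : ℝ) ≤ W (17 / 10) t 0 := by
    rw [W_split (by norm_num) t 0 4]
    have h1 := W_nonneg (q := 17 / 10) (by norm_num) t (0 + 4)
    have h2 : PW (17 / 10 : ℝ) t 0 4 = 1 / (17 / 10) + 1 / (17 / 10) ^ 2 + 1 / (17 / 10) ^ 4 := by
      unfold PW P
      simp [sum_range_succ, t_one, t_two, t_three, t_four, b_true, b_false]
    rw [h2]
    have h3 : 0 ≤ W (17 / 10) t (0 + 4) / (17 / 10 : ℝ) ^ 4 := div_nonneg h1 (by norm_num)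
    norm_num at h3 ⊢
    linarith
  have hhi : W (18 / 10) t 0 ≤ 1 := by
    rw [W_split (by norm_num) t 0 6]
    have h1 := W_le (q := 18 / 10) (by norm_num) t (0 + 6)
    have h2 : PW (18 / 10 : ℝ) t 0 6 = 1 / (18 / 10) + 1 / (18 / 10) ^ 2 + 1 / (18 / 10) ^ 4 := by
      unfold PW P
      simp [sum_range_succ, t_one, t_two, t_three, t_four, t_five, t_six, b_true, b_false]
    rw [h2]
    have h3 : W (18 / 10) t (0 + 6) / (18 / 10 : ℝ) ^ 6 ≤ (1 / (18 / 10 - 1)) / (18 / 10 : ℝ) ^ 6 :=
      div_le_div_of_nonneg_right h1 (by norm_num)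
    norm_num at h3 ⊢
    linarith
  have hivt := intermediate_value_Icc' (by norm_num : (17 / 10 : ℝ) ≤ 18 / 10) hcont
  obtain ⟨q, hq, hq1⟩ := hivt ⟨hhi, hlo⟩
  exact ⟨q, hq.1, hq.2, hq1⟩

/-- lexicographic domination by `τ` of all tails implies that the tails have value `< 1` -/
lemma lex_lt {q : ℝ} (hq : 1 < q) (h1 : W q t 0 = 1) (g : ℕ → Bool) (N : ℕ)
    (h : ∀ n, N ≤ n → ∃ j, 1 ≤ j ∧ (∀ i, 1 ≤ i → i < j → g (n + i) = t i) ∧
      g (n + j) = false ∧ t j = true) (n : ℕ) (hn : N ≤ n) : W q g n < 1 := by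
  have hq0 : 0 < q := by linarith
  have step : ∀ n, N ≤ n → ∃ j, 1 ≤ j ∧
      W q g n - 1 = (W q g (n + j) - 1 - W q t j) / q ^ j := by
    intro n hn
    obtain ⟨j, hj1, hj2, hj3, hj4⟩ := h n hn
    refine ⟨j, hj1, ?_⟩
    have e1 := W_digit hq g n j hj1
    have e2 := W_digit hq t 0 j hj1
    rw [h1, zero_add, hj4, b_true] at e2
    rw [hj3, b_false] at e1
    have e3 : PW q g n (j - 1) = PW q t 0 (j - 1) := by
      refine PW_congr _ _ _ _ _ (fun i hi1 hi2 => ?_)
      rw [hj2 i hi1 (by omega), zero_add]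
    rw [e1, e3]
    have e4 : PW q t 0 (j - 1) = 1 - (1 + W q t j) / q ^ j := by linarith
    rw [e4]
    ring
  have bound : ∀ m : ℕ, ∀ n, N ≤ n → W q g n - 1 ≤ (1 / (q - 1)) * (1 / q) ^ m := by
    intro m
    induction m with
    | zero =>
      intro n hn
      have := W_le hq g n
      simp only [pow_zero, mul_one]
      linarith
    | succ m ih =>
      intro n hn
      obtain ⟨j, hj1, hj2⟩ := step n hn
      rw [hj2]
      have h3 := ih (n + j) (by omega)
      have h4 := W_nonneg hq t j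
      have h5 : (1 : ℝ) ≤ q ^ (j - 1) := one_le_pow₀ hq.le
      have h6 : q ^ j = q ^ (j - 1) * q := by rw [← pow_succ]; congr 1; omega
      have h7 : (W q g (n + j) - 1 - W q t j) / q ^ j ≤ (1 / (q - 1)) * (1 / q) ^ m / q ^ j :=
        div_le_div_of_nonneg_right (by linarith) (by positivity)
      have h8 : (1 / (q - 1)) * (1 / q) ^ m / q ^ j ≤ (1 / (q - 1)) * (1 / q) ^ m / q := by
        have hpos : 0 ≤ (1 / (q - 1)) * (1 / q) ^ m := by
          have : 0 < q - 1 := by linarith
          positivity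
        refine div_le_div_of_nonneg_left hpos hq0 ?_
        rw [h6]; nlinarith
      have h9 : (1 / (q - 1)) * (1 / q) ^ m / q = (1 / (q - 1)) * (1 / q) ^ (m + 1) := by
        rw [pow_succ]; ring
      linarith
  have lim : Filter.Tendsto (fun m : ℕ => (1 / (q - 1)) * (1 / q) ^ m) Filter.atTop (nhds 0) := by
    have := tendsto_pow_atTop_nhds_zero_of_lt_one (r := 1 / q) (by positivity)
      (by rw [div_lt_one hq0]; exact hq)
    simpa using this.const_mul (1 / (q - 1))
  have le1 : ∀ n, N ≤ n → W q g n - 1 ≤ 0 := fun n hn => ge_of_tendsto' lim (fun m => bound m n hn)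
  obtain ⟨j, hj1, hj2⟩ := step n hn
  have hpos : 0 < W q t j := by
    -- `t` has a digit one after position `j`
    have ht : t (2 ^ j) = true := t_pow j
    have hjlt : j < 2 ^ j := Nat.lt_two_pow_self
    have e := W_digit hq t j (2 ^ j - j) (by omega)
    rw [show j + (2 ^ j - j) = 2 ^ j by omega, ht, b_true] at e
    rw [e]
    have a1 : 0 ≤ PW q t j (2 ^ j - j - 1) := P_nonneg hq _ _ _
    have a2 : 0 < (1 + W q t (2 ^ j)) / q ^ (2 ^ j - j) :=
      div_pos (by have := W_nonneg hq t (2 ^ j); linarith) (by positivity)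
    linarith
  have h3 := le1 (n + j) (by omega)
  have h4 : (W q g (n + j) - 1 - W q t j) / q ^ j < 0 := div_neg_of_neg_of_pos (by linarith) (by positivity)
  linarith

/-- tails of the Thue-Morse sequence, upper bound -/
lemma tm_tail_lt {q : ℝ} (hq : 1 < q) (h1 : W q t 0 = 1) (n : ℕ) (hn : 1 ≤ n) : W q t n < 1 :=
  lex_lt hq h1 t 1 (fun n hn => tm_up n hn) n hn

/-- tails of the Thue-Morse sequence, lower bound -/
lemma tm_tail_gt {q : ℝ} (hq : 1 < q) (h1 : W q t 0 = 1) (n : ℕ) : 1 / (q - 1) - 1 < W q t n := by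
  have := lex_lt hq h1 (fun i => !t i) 0 (fun n _ => by
    obtain ⟨j, a1, a2, a3, a4⟩ := tm_low n
    refine ⟨j, a1, ?_, ?_, a4⟩
    · intro i hi1 hi2
      rw [a2 i hi1 hi2]; simp
    · rw [a3]; rfl) n (Nat.zero_le _)
  rw [W_compl hq] at this
  linarith

/-- key inequality: a larger first block is too large in a smaller base -/
lemma K1 {q r : ℝ} (hq : 1 < q) (hqr : q < r) (h1 : W r t 0 = 1) (n : ℕ) (hn : 1 ≤ n)
    (ht : t n = false) : 1 < PW q t 0 (n - 1) + 1 / q ^ n := by
  have hr : 1 < r := hq.trans hqr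
  have e := W_digit hr t 0 n hn
  rw [h1, zero_add, ht, b_false, zero_add] at e
  have h2 := tm_tail_lt hr h1 n hn
  have h3 : W r t n / r ^ n < 1 / r ^ n := div_lt_div_of_pos_right h2 (by positivity)
  have h4 := PW_anti hq hqr.le t 0 (n - 1)
  have h5 : 1 / r ^ n ≤ 1 / q ^ n :=
    div_le_div_of_nonneg_left (by norm_num) (by positivity) (pow_le_pow_left₀ (by linarith) hqr.le _)
  linarith

/-- first difference of two digit sequences -/
lemma first_diff (g d : ℕ → Bool) (h : ∃ n, 1 ≤ n ∧ g n ≠ d n) :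
    ∃ n, 1 ≤ n ∧ g n ≠ d n ∧ ∀ i, 1 ≤ i → i < n → g i = d i := by
  classical
  refine ⟨Nat.find h, (Nat.find_spec h).1, (Nat.find_spec h).2, ?_⟩
  intro i h1 h2
  by_contra hne
  exact Nat.find_min h h2 ⟨h1, hne⟩

/-- In a base below the Komornik-Loreti constant, 1 has no unique expansion. -/
lemma kl_min {q r : ℝ} (hq : 1 < q) (hq2 : q ≤ 2) (hqr : q < r) (h1 : W r t 0 = 1) (c : ℕ → Bool)
    (hu : ∀ c' : ℕ → Bool, T q c' 0 = T q c 0 → c' = c) : T q c 0 ≠ 1 := by
  intro hc
  have hq0 : 0 < q := by linarith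
  have hq1 : 0 < q - 1 := by linarith
  set s : ℝ := 1 / (q - 1) with hs
  have hs1 : 1 ≤ s := by rw [hs, le_div_iff₀ hq1]; linarith
  set g : ℕ → Bool := fun i => c (i - 1) with hg
  have hW : ∀ n, W q g n = T q c n := fun n => W_of_zero_based c n
  have hf : ∀ n, 1 ≤ n → g n = false → W q g n < 1 := by
    intro n hn hgn
    rw [hW]
    have := unique_false hq hq2 c hu (n - 1) hgn
    rwa [show n - 1 + 1 = n by omega] at this
  have ht : ∀ n, 1 ≤ n → g n = true → s - 1 < W q g n := by
    intro n hn hgn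
    rw [hW]
    have := unique_true hq hq2 c hu (n - 1) hgn
    rwa [show n - 1 + 1 = n by omega] at this
  have hW0 : W q g 0 = 1 := by rw [hW, hc]
  have hex : ∃ n, 1 ≤ n ∧ g n ≠ t n := by
    by_contra hcon
    push Not at hcon
    have : W q g 0 = W q t 0 := by
      unfold W
      apply T_congr
      intro i
      exact hcon (0 + i + 1) (by omega)
    have h2 := W_lt hq hqr t 0 t_one
    linarith
  obtain ⟨n, hn1, hn2, hn3⟩ := first_diff g t hex
  have hpre : PW q g 0 (n - 1) = PW q t 0 (n - 1) :=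
    PW_congr _ _ _ _ _ (fun i hi1 hi2 => by simpa using hn3 i hi1 (by omega))
  have e0 := W_digit hq g 0 n hn1
  rw [hpre, zero_add, hW0] at e0
  cases hgn : g n with
  | true =>
    have htn : t n = false := by
      cases h : t n with
      | false => rfl
      | true => rw [hgn, h] at hn2; exact absurd rfl hn2
    rw [hgn, b_true] at e0
    have h2 := K1 hq hqr h1 n hn1 htn
    have h3 : 1 / q ^ n ≤ (1 + W q g n) / q ^ n :=
      div_le_div_of_nonneg_right (by have := W_nonneg hq g n; linarith) (by positivity)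
    linarith
  | false =>
    have htn : t n = true := by
      cases h : t n with
      | true => rfl
      | false => rw [hgn, h] at hn2; exact absurd rfl hn2
    have hv := hf n hn1 hgn
    rcases Nat.lt_or_ge 1 n with hn | hn
    · -- `n ≥ 2`
      obtain ⟨k, hk1, hk2⟩ : ∃ k, 2 ^ k < n ∧ n ≤ 2 ^ (k + 1) := by
        have h5 : n - 1 ≠ 0 := by omega
        refine ⟨Nat.log 2 (n - 1), ?_, ?_⟩
        · have := Nat.pow_log_le_self 2 h5; omega
        · have := Nat.lt_pow_succ_log_self (b := 2) (by norm_num) (n - 1)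
          have h6 : n - 1 < 2 ^ (Nat.log 2 (n - 1) + 1) := this
          omega
      have hpow : 2 ^ (k + 1) = 2 ^ k + 2 ^ k := by rw [pow_succ]; ring
      have hM1 : 1 ≤ 2 ^ k := Nat.one_le_two_pow
      obtain ⟨R, hR⟩ : ∃ R, n = 2 ^ k + R := ⟨n - 2 ^ k, by omega⟩
      have hR1 : 1 ≤ R := by omega
      have hRM : R ≤ 2 ^ k := by omega
      have hgM : g (2 ^ k) = true := by rw [hn3 _ hM1 hk1, t_pow]
      have hwM := ht _ hM1 hgM
      have e1 := W_digit hq (fun i => !g i) (2 ^ k) R hR1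
      have e2 : PW q (fun i => !g i) (2 ^ k) (R - 1) = PW q t 0 (R - 1) := by
        refine PW_congr _ _ _ _ _ (fun i hi1 hi2 => ?_)
        rw [hn3 _ (by omega) (by omega), t_add k i (by omega)]
        simp
      rw [e2, ← hR, hgn, W_compl hq, W_compl hq] at e1
      simp only [Bool.not_false, b_true] at e1
      rcases Nat.lt_or_ge R (2 ^ k) with hRlt | hRge
      · have htR : t R = false := by
          have := t_add k R hRlt
          rw [← hR, htn] at this
          cases h : t R with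
          | false => rfl
          | true => rw [h] at this; exact Bool.noConfusion this
        have h2 := K1 hq hqr h1 R hR1 htR
        have h3 : 1 / q ^ R ≤ (1 + (1 / (q - 1) - W q g n)) / q ^ R :=
          div_le_div_of_nonneg_right (by rw [← hs]; linarith) (by positivity)
        have h4 : 1 / (q - 1) - W q g (2 ^ k) < 1 := by rw [← hs]; linarith
        linarith
      · have hRe : R = 2 ^ k := le_antisymm hRM hRge
        have e3 : PW q t 0 (2 ^ k) = PW q t 0 (2 ^ k - 1) + 1 / q ^ (2 ^ k) := by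
          rw [PW_pred q t 0 (2 ^ k) hM1, zero_add, t_pow, b_true]
        have e4 := W_split hq g 0 (2 ^ k)
        have e5 : PW q g 0 (2 ^ k) = PW q t 0 (2 ^ k) :=
          PW_congr _ _ _ _ _ (fun i hi1 hi2 => by simpa using hn3 i hi1 (by omega))
        rw [hW0, zero_add, e5] at e4
        rw [hRe] at e1
        rw [← hs] at e1
        set A : ℝ := PW q t 0 (2 ^ k) with hA
        set h : ℝ := 1 / q ^ (2 ^ k) with hh
        have hh0 : 0 < h := by rw [hh]; positivity
        have hh1 : h < 1 := by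
          rw [hh, div_lt_one (by positivity)]
          exact one_lt_pow₀ hq (by omega)
        have e6 : s - W q g (2 ^ k) = A + h * (s - W q g n) := by
          rw [e1, e3, hh]; ring
        have e7 : (1 : ℝ) = A + h * W q g (2 ^ k) := by
          rw [hh]; rw [one_div_mul_eq_div]; exact e4
        have e8 : A + h * (s - 1) < 1 := by nlinarith
        have e9 : W q g (2 ^ k) = s - A - h * (s - W q g n) := by linarith
        have e10 : (1 : ℝ) = A * (1 - h) + h * s * (1 - h) + h * h * W q g n := by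
          rw [e9] at e7; nlinarith
        have e11 : (A + h * s) * (1 - h) < (1 + h) * (1 - h) :=
          mul_lt_mul_of_pos_right (by linarith) (by linarith)
        have e12 : h * h * W q g n < h * h * 1 := mul_lt_mul_of_pos_left hv (by positivity)
        nlinarith
    · have hn' : n = 1 := by omega
      subst hn'
      rw [hgn, b_false] at e0
      simp only [Nat.sub_self, pow_one, zero_add] at e0
      have h3 : PW q t 0 0 = 0 := by simp [PW, P]
      rw [h3, zero_add] at e0
      have h4 : W q g 1 / q < 1 := by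
        rw [div_lt_one hq0]; linarith
      linarith

end Pool.Agent.Work.MP_6b9f1a_nt
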