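import Mathlib
import Pool.Agent.Work.MP_6b9f1a_nt.QStar

/-!
Points of the level set of the Komornik-Loreti constant.
-/

set_option autoImplicit false

open Finset

namespace Pool.Agent.Work.MP_6b9f1a_nt

/-- block ends -/
def L (s : ℕ → ℕ) : ℕ → ℕ
  | 0 => 1
  | (k + 1) => L s k + 2 ^ s k

/-- admissible block exponents -/
structure Adm (s : ℕ → ℕ) : Prop where
  h0 : 4 ≤ s 0
  hs : ∀ k, s k + 1 ≤ s (k + 1)

/-- a digit sequence (numbered from 1) with the block structure given by `s` -/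
structure Good (s : ℕ → ℕ) (d : ℕ → Bool) : Prop where
  h1 : ∀ k, d (L s k) = true
  h2 : ∀ k R, 1 ≤ R → R < 2 ^ s k → d (L s k + R) = !t R

lemma L_succ (s : ℕ → ℕ) (k : ℕ) : L s (k + 1) = L s k + 2 ^ s k := rfl

lemma L_lt_succ (s : ℕ → ℕ) (k : ℕ) : L s k < L s (k + 1) := by
  rw [L_succ]; have : 0 < 2 ^ s k := by positivity
  omega

lemma L_strictMono (s : ℕ → ℕ) : StrictMono (L s) := strictMono_nat_of_lt_succ (L_lt_succ s)

lemma L_ge (s : ℕ → ℕ) (k : ℕ) : k + 1 ≤ L s k := by
  induction k with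
  | zero => exact le_refl _
  | succ k ih => have := L_lt_succ s k; omega

lemma L_bound {s : ℕ → ℕ} (hs : Adm s) (k : ℕ) : L s k + 15 ≤ 2 ^ s k := by
  induction k with
  | zero =>
    have h : 2 ^ 4 ≤ 2 ^ s 0 := Nat.pow_le_pow_right (by norm_num) hs.h0
    have : L s 0 = 1 := rfl
    omega
  | succ k ih =>
    have h : 2 ^ (s k + 1) ≤ 2 ^ s (k + 1) := Nat.pow_le_pow_right (by norm_num) (hs.hs k)
    rw [pow_succ] at h
    rw [L_succ]
    omega

/-- every positive index lies in a block -/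
lemma block (s : ℕ → ℕ) (n : ℕ) (hn : 1 ≤ n) : ∃ k R, R < 2 ^ s k ∧ n = L s k + R := by
  classical
  have hex : ∃ k, n < L s k := ⟨n, by have := L_ge s n; omega⟩
  have h1 := Nat.find_spec hex
  have h2 : Nat.find hex ≠ 0 := by
    intro h
    rw [h] at h1
    have : L s 0 = 1 := rfl
    omega
  obtain ⟨k, hk⟩ : ∃ k, Nat.find hex = k + 1 := ⟨Nat.find hex - 1, by omega⟩
  have h3 : ¬ (n < L s k) := Nat.find_min hex (by omega)
  rw [hk, L_succ] at h1
  exact ⟨k, n - L s k, by omega, by omega⟩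

/-- existence of good digit sequences -/
lemma exists_good (s : ℕ → ℕ) : ∃ d, Good s d := by
  classical
  refine ⟨fun n => if ∃ k, n = L s k then true else
    if h : ∃ k R, 1 ≤ R ∧ R < 2 ^ s k ∧ n = L s k + R then !t h.choose_spec.choose else true, ?_, ?_⟩
  · intro k
    simp
  · intro k R hR1 hR2
    have hL := L_succ s k
    have h1 : ¬ ∃ k', L s k + R = L s k' := by
      rintro ⟨k', hk'⟩
      rcases Nat.lt_or_ge k' (k + 1) with h | h
      · have : L s k' ≤ L s k := (L_strictMono s).monotone (by omega)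
        omega
      · have : L s (k + 1) ≤ L s k' := (L_strictMono s).monotone h
        omega
    have h2 : ∃ k' R', 1 ≤ R' ∧ R' < 2 ^ s k' ∧ L s k + R = L s k' + R' := ⟨k, R, hR1, hR2, rfl⟩
    simp only [h1, if_false]
    rw [dif_pos h2]
    have hsp := h2.choose_spec.choose_spec
    have huniq : ∀ k' R', 1 ≤ R' → R' < 2 ^ s k' → L s k + R = L s k' + R' → R' = R := by
      intro k' R' a1 a2 a3
      have hkk : k' = k := by
        rcases Nat.lt_trichotomy k' k with h | h | h
        · have : L s (k' + 1) ≤ L s k := (L_strictMono s).monotone (by omega)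
          rw [L_succ] at this
          omega
        · exact h
        · have : L s (k + 1) ≤ L s k' := (L_strictMono s).monotone (by omega)
          rw [L_succ] at this
          omega
      rw [hkk] at a3
      omega
    rw [huniq _ _ hsp.1 hsp.2.1 hsp.2.2]

/-- tails of good sequences are above the complement of `τ` -/
lemma good_low {s : ℕ → ℕ} {d : ℕ → Bool} (hd : Good s d) (n : ℕ) (hn : 1 ≤ n) :
    ∃ j, 1 ≤ j ∧ (∀ i, 1 ≤ i → i < j → d (n + i) = !t i) ∧ d (n + j) = true ∧ t j = true := by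
  obtain ⟨k, R, hR, rfl⟩ := block s n hn
  have hend : d (L s k + 2 ^ s k) = true := hd.h1 (k + 1)
  rcases Nat.eq_zero_or_pos R with h0 | hpos
  · subst h0
    refine ⟨2 ^ s k, Nat.one_le_two_pow, ?_, ?_, t_pow _⟩
    · intro i hi1 hi2
      exact hd.h2 k i hi1 hi2
    · exact hend
  · rcases (TM (s k) R hR).2 with he | hu
    · refine ⟨2 ^ s k - R, by omega, ?_, ?_, ?_⟩
      · intro i hi1 hi2
        rw [add_assoc, hd.h2 k (R + i) (by omega) (by omega), he i hi1 (by omega)]
      · rw [add_assoc, show R + (2 ^ s k - R) = 2 ^ s k by omega]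
        exact hend
      · rw [← he (2 ^ s k - R) (by omega) (le_refl _), show R + (2 ^ s k - R) = 2 ^ s k by omega, t_pow]
    · obtain ⟨j, hj1, hj2, hj3, hj4, hj5⟩ := hu
      have hne : R + j ≠ 2 ^ s k := by
        intro h
        rw [h, t_pow] at hj4
        exact Bool.noConfusion hj4
      refine ⟨j, hj1, ?_, ?_, hj5⟩
      · intro i hi1 hi2
        rw [add_assoc, hd.h2 k (R + i) (by omega) (by omega), hj3 i hi1 hi2]
      · rw [add_assoc, hd.h2 k (R + j) (by omega) (by omega), hj4]; rfl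

/-- tails of good sequences are below `τ` -/
lemma good_up {s : ℕ → ℕ} {d : ℕ → Bool} (hs : Adm s) (hd : Good s d) (n : ℕ) (hn : 1 ≤ n) :
    ∃ j, 1 ≤ j ∧ (∀ i, 1 ≤ i → i < j → d (n + i) = t i) ∧ d (n + j) = false ∧ t j = true := by
  obtain ⟨k, R, hR, rfl⟩ := block s n hn
  have hend : d (L s k + 2 ^ s k) = true := hd.h1 (k + 1)
  rcases Nat.eq_zero_or_pos R with h0 | hpos
  · subst h0
    have h2 : 1 < 2 ^ s k := by have := L_bound hs k; omega
    refine ⟨1, le_refl _, fun i h1 h2 => by omega, ?_, t_one⟩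
    have := hd.h2 k 1 (le_refl _) h2
    rw [t_one] at this
    exact this
  · obtain ⟨j, hj1, hj2, hj3, hj4, hj5⟩ := (TM (s k) R hR).1
    by_cases hj : R + j < 2 ^ s k
    · refine ⟨j, hj1, ?_, ?_, hj5⟩
      · intro i hi1 hi2
        rw [add_assoc, hd.h2 k (R + i) (by omega) (by omega), hj3 i hi1 hi2]
        simp
      · rw [add_assoc, hd.h2 k (R + j) (by omega) hj, hj4]; rfl
    · have hjeq : R + j = 2 ^ s k := by omega
      obtain ⟨j', a1, a2, a3, a4, a5⟩ := (TM (s k) j (by omega)).1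
      have hnext : 2 ^ s k < 2 ^ s (k + 1) :=
        Nat.pow_lt_pow_right (by norm_num) (by have := hs.hs k; omega)
      have hpos' : L s k + R + j = L s (k + 1) := by rw [L_succ]; omega
      refine ⟨j + j', by omega, ?_, ?_, a4⟩
      · intro i hi1 hi2
        rcases Nat.lt_trichotomy i j with h | h | h
        · rw [add_assoc, hd.h2 k (R + i) (by omega) (by omega), hj3 i hi1 h]
          simp
        · subst h
          rw [hpos', hd.h1, hj5]
        · obtain ⟨i', rfl⟩ : ∃ i', i = j + i' := ⟨i - j, by omega⟩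
          rw [← add_assoc, hpos', hd.h2 (k + 1) i' (by omega) (by omega), a3 i' (by omega) (by omega)]
      · rw [← add_assoc, hpos', hd.h2 (k + 1) j' (by omega) (by omega), a5]; rfl

lemma good_tail_lt {r : ℝ} (hr : 1 < r) (h1 : W r t 0 = 1) {s : ℕ → ℕ} {d : ℕ → Bool} (hs : Adm s)
    (hd : Good s d) (n : ℕ) (hn : 1 ≤ n) : W r d n < 1 :=
  lex_lt hr h1 d 1 (fun n hn => good_up hs hd n hn) n hn

lemma good_tail_gt {r : ℝ} (hr : 1 < r) (h1 : W r t 0 = 1) {s : ℕ → ℕ} {d : ℕ → Bool}
    (hd : Good s d) (n : ℕ) (hn : 1 ≤ n) : 1 / (r - 1) - 1 < W r d n := by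
  have := lex_lt hr h1 (fun i => !d i) 1 (fun n hn => by
    obtain ⟨j, a1, a2, a3, a4⟩ := good_low hd n hn
    refine ⟨j, a1, ?_, ?_, a4⟩
    · intro i hi1 hi2
      rw [a2 i hi1 hi2]; simp
    · rw [a3]; rfl) n hn
  rw [W_compl hr] at this
  linarith

/-- the tail of `τ` after a power of two is close to the complement of `τ` -/
lemma tm_tail_pow {r : ℝ} (hr : 1 < r) (h1 : W r t 0 = 1) (k : ℕ) :
    W r t (2 ^ k) ≤ (1 / (r - 1) - 1) + 2 / r ^ (2 ^ k) := by
  have hM1 : 1 ≤ 2 ^ k := Nat.one_le_two_pow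
  have e1 := W_digit hr t (2 ^ k) (2 ^ k) hM1
  have e2 := W_digit hr (fun i => !t i) 0 (2 ^ k) hM1
  have e3 : PW r t (2 ^ k) (2 ^ k - 1) = PW r (fun i => !t i) 0 (2 ^ k - 1) := by
    refine PW_congr _ _ _ _ _ (fun i hi1 hi2 => ?_)
    rw [t_add k i (by omega), zero_add]
  have h2 := tm_tail_lt hr h1 (2 ^ k + 2 ^ k) (by omega)
  rw [W_compl hr, h1] at e2
  have e4 : (!t (0 + 2 ^ k)) = false := by rw [zero_add, t_pow]; rfl
  rw [e4, b_false] at e2
  have h3 := W_nonneg hr (fun i => !t i) (0 + 2 ^ k)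
  have h4 : 0 ≤ (0 + W r (fun i => !t i) (0 + 2 ^ k)) / r ^ (2 ^ k) := div_nonneg (by linarith) (by positivity)
  have h5 : (b (t (2 ^ k + 2 ^ k)) + W r t (2 ^ k + 2 ^ k)) / r ^ (2 ^ k) ≤ 2 / r ^ (2 ^ k) :=
    div_le_div_of_nonneg_right (by have := b_le (t (2 ^ k + 2 ^ k)); linarith) (by positivity)
  rw [e1, e3]
  linarith

/-- lower bound for the base -/
lemma base_gt {q : ℝ} (hq : 1 < q) (M : ℕ) (hM : 2 ≤ M) (h : PW q t 0 M < 1) : 16 / 10 < q := by
  have h7 : PW q t 0 M = PW q t 0 2 + PW q t 2 (M - 2) / q ^ 2 := by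
    have a := W_split hq t 0 M
    have a' := W_split hq t 0 2
    have a'' := W_split hq t 2 (M - 2)
    rw [zero_add] at a a'
    rw [show 2 + (M - 2) = M by omega] at a''
    have hp : q ^ M = q ^ 2 * q ^ (M - 2) := by rw [← pow_add]; congr 1; omega
    rw [a''] at a'
    have : (PW q t 2 (M - 2) + W q t M / q ^ (M - 2)) / q ^ 2
        = PW q t 2 (M - 2) / q ^ 2 + W q t M / q ^ M := by
      rw [hp]; field_simp
    rw [this] at a'
    linarith
  have h8 : PW q t 0 2 = 1 / q + 1 / q ^ 2 := by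
    unfold PW P
    simp [sum_range_succ, t_one, t_two, b_true]
  have h9 : 0 ≤ PW q t 2 (M - 2) / q ^ 2 := div_nonneg (P_nonneg hq _ _ _) (by positivity)
  have h10 : 1 / q + 1 / q ^ 2 < 1 := by linarith
  have h11 : 1 / q + 1 / q ^ 2 = (q + 1) / q ^ 2 := by field_simp
  rw [h11, div_lt_one (by positivity)] at h10
  nlinarith

/-- conversion of the geometric difference -/
lemma geo_conv {q r : ℝ} (hq : 16 / 10 < q) (hqr : q < r) (hr1 : 17 / 10 ≤ r) :
    1 / (q - 1) - 1 / (r - 1) ≤ (1 / q - 1 / r) * 7 := by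
  have hq0 : 0 < q := by linarith
  have hq1 : 0 < q - 1 := by linarith
  have hrr : 0 < r - 1 := by linarith
  have hr0 : 0 < r := by linarith
  have c1 : 1 / (q - 1) - 1 / (r - 1) = (1 / q - 1 / r) * ((q / (q - 1)) * (r / (r - 1))) := by
    field_simp
    ring
  have c2 : q / (q - 1) ≤ 8 / 3 := by
    rw [div_le_div_iff₀ hq1 (by norm_num)]; linarith
  have c3 : r / (r - 1) ≤ 17 / 7 := by
    rw [div_le_div_iff₀ hrr (by norm_num)]; linarith
  have c4 : 0 ≤ 1 / q - 1 / r := by
    have : 1 / r ≤ 1 / q := div_le_div_of_nonneg_left (by norm_num) hq0 hqr.le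
    linarith
  have c5 : (q / (q - 1)) * (r / (r - 1)) ≤ 8 / 3 * (17 / 7) :=
    mul_le_mul c2 c3 (by positivity) (by norm_num)
  rw [c1]
  refine mul_le_mul_of_nonneg_left ?_ c4
  refine c5.trans ?_
  norm_num

/-- upper bound for the difference of the inverses -/
lemma inv_diff {q r : ℝ} (hq : 1 < q) (hqr : q < r) (hq2 : q ≤ 2) (h1 : W r t 0 = 1) (k : ℕ)
    (hA : PW q t 0 (2 ^ k) + (1 / (q - 1) - 1) / q ^ (2 ^ k) < 1) :
    1 / q - 1 / r < 2 / (r ^ (2 ^ k) * r ^ (2 ^ k)) := by
  have hr : 1 < r := hq.trans hqr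
  have hq1 : 0 < q - 1 := by linarith
  have hs1 : 1 ≤ 1 / (q - 1) := by rw [le_div_iff₀ hq1]; linarith
  have hM1 : 1 ≤ 2 ^ k := Nat.one_le_two_pow
  have a1 := W_split hr t 0 (2 ^ k)
  rw [h1, zero_add] at a1
  have a2 := tm_tail_pow hr h1 k
  have a3 : W r t (2 ^ k) / r ^ (2 ^ k) ≤ ((1 / (r - 1) - 1) + 2 / r ^ (2 ^ k)) / r ^ (2 ^ k) :=
    div_le_div_of_nonneg_right a2 (by positivity)
  have a4 : 1 / (r - 1) - 1 ≤ 1 / (q - 1) - 1 := by
    have : 1 / (r - 1) ≤ 1 / (q - 1) :=
      div_le_div_of_nonneg_left (by norm_num) hq1 (by linarith)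
    linarith
  have a5 : (1 / (r - 1) - 1) / r ^ (2 ^ k) ≤ (1 / (q - 1) - 1) / q ^ (2 ^ k) := by
    have b1 : (1 / (r - 1) - 1) / r ^ (2 ^ k) ≤ (1 / (q - 1) - 1) / r ^ (2 ^ k) :=
      div_le_div_of_nonneg_right a4 (by positivity)
    have b2 : (1 / (q - 1) - 1) / r ^ (2 ^ k) ≤ (1 / (q - 1) - 1) / q ^ (2 ^ k) :=
      div_le_div_of_nonneg_left (by linarith) (by positivity)
        (pow_le_pow_left₀ (by linarith) hqr.le _)
    linarith
  have a6 := P_diff_ge hq hqr.le (fun i => t (i + 1)) 0 (2 ^ k) hM1 t_one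
  have a7 : 1 / q - 1 / r ≤ PW q t 0 (2 ^ k) - PW r t 0 (2 ^ k) := a6
  have a8 : ((1 / (r - 1) - 1) + 2 / r ^ (2 ^ k)) / r ^ (2 ^ k)
      = (1 / (r - 1) - 1) / r ^ (2 ^ k) + 2 / (r ^ (2 ^ k) * r ^ (2 ^ k)) := by
    rw [add_div, div_div]
  linarith

/-- the final numerical contradiction -/
lemma final_num {q r : ℝ} (hq : 16 / 10 < q) (hqr : q < r) (hr1 : 17 / 10 ≤ r) (hr2 : r ≤ 18 / 10)
    (n M l : ℕ) (hnM : n = l + M) (hl : l + 15 ≤ M)
    (hdiff : 1 / q - 1 / r < 2 / (r ^ M * r ^ M))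
    (hcmp : (1 / (r - 1) - 1) / r ^ n < 1 / (q - 1) - 1 / (r - 1)) : False := by
  have hrr : 0 < r - 1 := by linarith
  have hr0 : 0 < r := by linarith
  have hconv := geo_conv hq hqr hr1
  have hκ : 1 / 4 ≤ 1 / (r - 1) - 1 := by
    have : (5 / 4 : ℝ) ≤ 1 / (r - 1) := by
      rw [le_div_iff₀ hrr]; linarith
    linarith
  have hfin : (1 / 4) / r ^ n < 14 / (r ^ M * r ^ M) := by
    have d1 : (1 / 4) / r ^ n ≤ (1 / (r - 1) - 1) / r ^ n :=
      div_le_div_of_nonneg_right hκ (by positivity)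
    have d2 : (1 / q - 1 / r) * 7 < 2 / (r ^ M * r ^ M) * 7 :=
      mul_lt_mul_of_pos_right hdiff (by norm_num)
    have d3 : 2 / (r ^ M * r ^ M) * 7 = 14 / (r ^ M * r ^ M) := by ring
    linarith
  have hMn : r ^ M * r ^ M = r ^ n * r ^ (M - l) := by
    rw [← pow_add, ← pow_add]; congr 1; omega
  have h15 : (r : ℝ) ^ 15 ≤ r ^ (M - l) := pow_le_pow_right₀ (by linarith) (by omega)
  have h16 : (17 / 10 : ℝ) ^ 15 ≤ r ^ 15 := pow_le_pow_left₀ (by norm_num) hr1 _
  have h17 : (57 : ℝ) ≤ (17 / 10 : ℝ) ^ 15 := by norm_num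
  rw [hMn, div_lt_div_iff₀ (by positivity) (by positivity)] at hfin
  have h18 : (0 : ℝ) < r ^ n := by positivity
  have h19 : (57 : ℝ) ≤ r ^ (M - l) := h17.trans (h16.trans h15)
  have h20 : 1 / 4 * (r ^ n * r ^ (M - l)) = r ^ n * (1 / 4 * r ^ (M - l)) := by ring
  have h21 : 14 * r ^ n = r ^ n * 14 := by ring
  rw [h20, h21] at hfin
  have h22 := lt_of_mul_lt_mul_left hfin h18.le
  linarith

/-- Main step: in a base below the Komornik-Loreti constant the point has no unique expansion. -/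
lemma no_smaller {q r : ℝ} (hq : 1 < q) (hq2 : q ≤ 2) (hqr : q < r) (hr1 : 17 / 10 ≤ r)
    (hr2 : r ≤ 18 / 10) (h1 : W r t 0 = 1)
    {s : ℕ → ℕ} {d : ℕ → Bool} (hs : Adm s) (hd : Good s d) (c : ℕ → Bool)
    (hu : ∀ c' : ℕ → Bool, T q c' 0 = T q c 0 → c' = c) : T q c 0 ≠ W r d 0 := by
  intro hc
  have hr : 1 < r := hq.trans hqr
  have hq0 : 0 < q := by linarith
  have hq1 : 0 < q - 1 := by linarith
  have hrr : 0 < r - 1 := by linarith
  set σ : ℝ := 1 / (q - 1) with hs'
  have hs1 : 1 ≤ σ := by rw [hs', le_div_iff₀ hq1]; linarith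
  set g : ℕ → Bool := fun i => c (i - 1) with hg
  have hW : ∀ n, W q g n = T q c n := fun n => W_of_zero_based c n
  have hf : ∀ n, 1 ≤ n → g n = false → W q g n < 1 := by
    intro n hn hgn
    rw [hW]
    have := unique_false hq hq2 c hu (n - 1) hgn
    rwa [show n - 1 + 1 = n by omega] at this
  have ht : ∀ n, 1 ≤ n → g n = true → σ - 1 < W q g n := by
    intro n hn hgn
    rw [hW]
    have := unique_true hq hq2 c hu (n - 1) hgn
    rwa [show n - 1 + 1 = n by omega] at this
  have hW0 : W q g 0 = W r d 0 := by rw [hW, hc]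
  have hd1 : d 1 = true := hd.h1 0
  have hex : ∃ n, 1 ≤ n ∧ g n ≠ d n := by
    by_contra hcon
    push Not at hcon
    have : W q g 0 = W q d 0 := by
      unfold W
      apply T_congr
      intro i
      exact hcon (0 + i + 1) (by omega)
    have h2 := W_lt hq hqr d 0 hd1
    linarith
  obtain ⟨n, hn1, hn2, hn3⟩ := first_diff g d hex
  have hpre : PW q g 0 (n - 1) = PW q d 0 (n - 1) :=
    PW_congr _ _ _ _ _ (fun i hi1 hi2 => by simpa using hn3 i hi1 (by omega))
  have e0 := W_digit hq g 0 n hn1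
  have f0 := W_digit hr d 0 n hn1
  rw [hpre, zero_add, hW0] at e0
  rw [zero_add] at f0
  have hanti := PW_anti hq hqr.le d 0 (n - 1)
  have hpow : q ^ n ≤ r ^ n := pow_le_pow_left₀ (by linarith) hqr.le _
  have hinv : 1 / r ^ n ≤ 1 / q ^ n :=
    div_le_div_of_nonneg_left (by norm_num) (by positivity) hpow
  cases hgn : g n with
  | true =>
    have hdn : d n = false := by
      cases h : d n with
      | false => rfl
      | true => rw [hgn, h] at hn2; exact absurd rfl hn2
    rw [hgn, b_true] at e0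
    rw [hdn, b_false, zero_add] at f0
    have h2 := good_tail_lt hr h1 hs hd n hn1
    have h3 : 1 / q ^ n ≤ (1 + W q g n) / q ^ n :=
      div_le_div_of_nonneg_right (by have := W_nonneg hq g n; linarith) (by positivity)
    have h4 : W r d n / r ^ n < 1 / r ^ n := div_lt_div_of_pos_right h2 (by positivity)
    linarith
  | false =>
    have hdn : d n = true := by
      cases h : d n with
      | true => rfl
      | false => rw [hgn, h] at hn2; exact absurd rfl hn2
    have hv := hf n hn1 hgn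
    rcases Nat.lt_or_ge 1 n with hn | hn
    · -- `n ≥ 2`
      obtain ⟨k, R', hR', hn4⟩ := block s (n - 1) (by omega)
      obtain ⟨R, hR⟩ : ∃ R, R = R' + 1 := ⟨_, rfl⟩
      have hnR : n = L s k + R := by omega
      have hR1 : 1 ≤ R := by omega
      have hRM : R ≤ 2 ^ s k := by omega
      have hLk1 : 1 ≤ L s k := by have := L_ge s k; omega
      have hgM : g (L s k) = true := by rw [hn3 _ hLk1 (by omega), hd.h1]
      have hwM := ht _ hLk1 hgM
      have e1 := W_digit hq (fun i => !g i) (L s k) R hR1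
      have e2 : PW q (fun i => !g i) (L s k) (R - 1) = PW q t 0 (R - 1) := by
        refine PW_congr _ _ _ _ _ (fun i hi1 hi2 => ?_)
        rw [hn3 _ (by omega) (by omega), hd.h2 k i hi1 (by omega)]
        simp
      rw [e2, ← hnR, hgn, W_compl hq, W_compl hq] at e1
      simp only [Bool.not_false, b_true] at e1
      rcases Nat.lt_or_ge R (2 ^ s k) with hRlt | hRge
      · have htR : t R = false := by
          have := hd.h2 k R hR1 hRlt
          rw [← hnR, hdn] at this
          cases h : t R with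
          | false => rfl
          | true => rw [h] at this; exact Bool.noConfusion this
        have h2 := K1 hq hqr h1 R hR1 htR
        have h3 : 1 / q ^ R ≤ (1 + (1 / (q - 1) - W q g n)) / q ^ R :=
          div_le_div_of_nonneg_right (by rw [← hs']; linarith) (by positivity)
        have h4 : 1 / (q - 1) - W q g (L s k) < 1 := by rw [← hs']; linarith
        linarith
      · have hRe : R = 2 ^ s k := le_antisymm hRM hRge
        have hMbound := L_bound hs k
        set M : ℕ := 2 ^ s k with hM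
        have hM1 : 1 ≤ M := by omega
        have e3 : PW q t 0 M = PW q t 0 (M - 1) + 1 / q ^ M := by
          rw [PW_pred q t 0 M hM1, zero_add, hM, t_pow, b_true]
        rw [hRe, ← hs'] at e1
        -- `A + (σ-1)/q^M < 1`
        have hA : PW q t 0 M + (σ - 1) / q ^ M < 1 := by
          have h5 : (σ - 1) / q ^ M ≤ (σ - W q g n) / q ^ M :=
            div_le_div_of_nonneg_right (by linarith) (by positivity)
          have h6 : (1 + (σ - W q g n)) / q ^ M = 1 / q ^ M + (σ - W q g n) / q ^ M := by ring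
          rw [h6] at e1
          linarith
        have hσ : 0 ≤ (σ - 1) / q ^ M := div_nonneg (by linarith) (by positivity)
        have hq16 : 16 / 10 < q := base_gt hq M (by omega) (by linarith)
        have hdiff : 1 / q - 1 / r < 2 / (r ^ M * r ^ M) := inv_diff hq hqr hq2 h1 (s k) hA
        have hcmp : (1 / (r - 1) - 1) / r ^ n < 1 / (q - 1) - 1 / (r - 1) := by
          have b1 := PW_pred q d 0 n hn1
          have b2 := PW_pred r d 0 n hn1
          rw [zero_add, hdn, b_true] at b1 b2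
          rw [hgn, b_false] at e0
          rw [hdn, b_true] at f0
          have b3 : W q g n / q ^ n < 1 / q ^ n := div_lt_div_of_pos_right hv (by positivity)
          have b4 := good_tail_gt hr h1 hd n hn1
          have b5 : (1 / (r - 1) - 1) / r ^ n < W r d n / r ^ n :=
            div_lt_div_of_pos_right b4 (by positivity)
          have b6 : (1 + W r d n) / r ^ n = 1 / r ^ n + W r d n / r ^ n := by ring
          have b7 := P_diff_le hq hqr.le (fun i => d (i + 1)) 0 n
          have b8 : PW q d 0 n - PW r d 0 n ≤ 1 / (q - 1) - 1 / (r - 1) := b7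
          rw [zero_add] at e0
          linarith
        exact final_num hq16 hqr hr1 hr2 n M (L s k) (by omega) hMbound hdiff hcmp
    · have hn' : n = 1 := by omega
      subst hn'
      have hq3 : 1 < q * (q - 1) := by
        refine base_large hq hq2 c hu ⟨0, hgn⟩ ?_
        by_contra hcon
        push Not at hcon
        have hz : ∀ i, c i = false := by
          intro i
          cases h : c i with
          | false => rfl
          | true => exact absurd h (hcon i)
        have : T q c 0 = 0 := by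
          unfold T
          simp [hz, b_false]
        have h5 := W_nonneg hr d (0 + 1)
        rw [this, W_succ hr d 0, hd1, b_true] at hc
        have h6 : 0 < (1 + W r d (0 + 1)) / r := by positivity
        linarith
      rw [hgn, b_false] at e0
      rw [hd1, b_true] at f0
      have h3 : PW q d 0 0 = 0 := by simp [PW, P]
      have h3' : PW r d 0 0 = 0 := by simp [PW, P]
      simp only [Nat.sub_self, pow_one, zero_add] at e0 f0
      rw [h3, zero_add] at e0
      rw [h3', zero_add] at f0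
      have h4 : W q g 1 / q < 1 / q := div_lt_div_of_pos_right hv hq0
      have h5 := good_tail_gt hr h1 hd 1 (le_refl _)
      have h6 : (1 / (r - 1)) / r < (1 + W r d 1) / r := div_lt_div_of_pos_right (by linarith) (by linarith)
      have h7 : (1 / (r - 1)) / r < 1 / q := by linarith
      have h8 : (1 / (r - 1)) / r = 1 / ((r - 1) * r) := by rw [div_div]
      rw [h8, div_lt_div_iff₀ (by positivity) hq0] at h7
      nlinarith

end Pool.Agent.Work.MP_6b9f1a_nt
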