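import Mathlib
import Pool.Agent.Work.MP_6b9f1a_nt.Main

/-!
An uncountable family of points, and two-sided accumulation points of uncountable sets.
-/

set_option autoImplicit false

namespace Pool.Agent.Work.MP_6b9f1a_nt

/-- exponents attached to a 0-1 sequence -/
def expo (f : ℕ → Bool) (k : ℕ) : ℕ := 2 * k + 4 + (f k).toNat

lemma expo_adm (f : ℕ → Bool) : Adm (expo f) := by
  constructor
  · unfold expo; omega
  · intro k
    unfold expo
    have : (f k).toNat ≤ 1 := by cases f k <;> simp
    omega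

noncomputable def dig (f : ℕ → Bool) : ℕ → Bool := (exists_good (expo f)).choose

lemma dig_good (f : ℕ → Bool) : Good (expo f) (dig f) := (exists_good (expo f)).choose_spec

lemma dig_inj (f g : ℕ → Bool) (h : ∀ n, 1 ≤ n → dig f n = dig g n) : f = g := by
  have key : ∀ k, expo f k = expo g k ∧ L (expo f) k = L (expo g) k := by
    intro k
    induction k using Nat.strong_induction_on with
    | _ k ih =>
      have hL : L (expo f) k = L (expo g) k := by
        rcases Nat.eq_zero_or_pos k with h0 | hpos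
        · subst h0; rfl
        · obtain ⟨j, rfl⟩ : ∃ j, k = j + 1 := ⟨k - 1, by omega⟩
          obtain ⟨a1, a2⟩ := ih j (by omega)
          rw [L_succ, L_succ, a1, a2]
      refine ⟨?_, hL⟩
      have hLpos : 1 ≤ L (expo f) k := by have := L_ge (expo f) k; omega
      have aux : ∀ (u v : ℕ → Bool), (∀ n, 1 ≤ n → dig u n = dig v n) →
          L (expo u) k = L (expo v) k → 1 ≤ L (expo u) k → ¬ (expo u k < expo v k) := by
        intro u v huv hLuv hL1 hlt
        have h1 : dig u (L (expo u) k + 2 ^ expo u k) = true := (dig_good u).h1 (k + 1)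
        have hlt2 : 2 ^ expo u k < 2 ^ expo v k := Nat.pow_lt_pow_right (by norm_num) hlt
        have h2 := (dig_good v).h2 k (2 ^ expo u k) Nat.one_le_two_pow hlt2
        rw [huv _ (hL1.trans (Nat.le_add_right _ _)), hLuv, h2, t_pow] at h1
        exact Bool.noConfusion h1
      have b1 := aux f g h hL hLpos
      have b2 := aux g f (fun n hn => (h n hn).symm) hL.symm (by rw [← hL]; exact hLpos)
      omega
  funext k
  have := (key k).1
  unfold expo at this
  cases hf : f k <;> cases hg : g k <;> simp [hf, hg] at this ⊢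

/-- definition of a two-sided accumulation point -/
def TwoSided (A : Set ℝ) (x : ℝ) : Prop :=
  ∀ ε > 0, (Set.Ioo (x - ε) x ∩ A).Nonempty ∧ (Set.Ioo x (x + ε) ∩ A).Nonempty

lemma countable_not_twoSided (A : Set ℝ) : {x ∈ A | ¬ TwoSided A x}.Countable := by
  have h1 : {x ∈ A | nhdsWithin x (A ∩ Set.Ioi x) = ⊥}.Countable :=
    countable_setOfPred_isolated_right_within
  have h2 : {x ∈ A | nhdsWithin x (A ∩ Set.Iio x) = ⊥}.Countable :=
    countable_setOfPred_isolated_left_within
  refine (h1.union h2).mono ?_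
  rintro x ⟨hxA, hx⟩
  unfold TwoSided at hx
  push Not at hx
  obtain ⟨ε, hε, hx⟩ := hx
  by_cases hne : (Set.Ioo (x - ε) x ∩ A).Nonempty
  · left
    refine ⟨hxA, ?_⟩
    have h3 := hx hne
    rw [← Filter.empty_mem_iff_bot, mem_nhdsWithin_iff_exists_mem_nhds_inter]
    refine ⟨Set.Iio (x + ε), Iio_mem_nhds (by linarith), ?_⟩
    intro y hy
    have : y ∈ Set.Ioo x (x + ε) ∩ A := ⟨⟨hy.2.2, hy.1⟩, hy.2.1⟩
    rw [h3] at this
    exact this
  · right
    refine ⟨hxA, ?_⟩
    rw [Set.not_nonempty_iff_eq_empty] at hne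
    rw [← Filter.empty_mem_iff_bot, mem_nhdsWithin_iff_exists_mem_nhds_inter]
    refine ⟨Set.Ioi (x - ε), Ioi_mem_nhds (by linarith), ?_⟩
    intro y hy
    have : y ∈ Set.Ioo (x - ε) x ∩ A := ⟨⟨hy.1, hy.2.2⟩, hy.2.1⟩
    rw [hne] at this
    exact this

end Pool.Agent.Work.MP_6b9f1a_nt
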